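import Pool.Agent.Helper23.AC.Defs

/-! AC-15a: games. -/

set_option autoImplicit false

namespace Pool.Agent.Helper23.AC

variable {X : Type*} [NormedAddCommGroup X] [NormedSpace ℝ X]

theorem Cof.inf_mem {Y Z : Submodule ℝ X} (hY : Y ∈ Cof X) (hZ : Z ∈ Cof X) : Y ⊓ Z ∈ Cof X := by
  obtain ⟨hY1, hY2⟩ := hY
  obtain ⟨hZ1, hZ2⟩ := hZ
  refine ⟨?_, ?_⟩
  · have := hY1.inter hZ1
    simpa using this
  · let f : X →ₗ[ℝ] (X ⧸ Y) × (X ⧸ Z) := Y.mkQ.prod Z.mkQ
    have hk : LinearMap.ker f = Y ⊓ Z := by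
      rw [LinearMap.ker_prod, Submodule.ker_mkQ, Submodule.ker_mkQ]
    have : FiniteDimensional ℝ (X ⧸ LinearMap.ker f) :=
      LinearEquiv.finiteDimensional f.quotKerEquivRange.symm
    rwa [hk] at this

theorem top_mem_cof : (⊤ : Submodule ℝ X) ∈ Cof X := by
  refine ⟨by simp, ?_⟩
  have : Subsingleton (X ⧸ (⊤ : Submodule ℝ X)) := Submodule.Quotient.subsingleton_iff.2 rfl
  infer_instance

theorem game_mono {k : ℕ} {Φ Ψ : (Fin k → X) → Prop} (h : ∀ x, Φ x → Ψ x) (hΦ : Game X k Φ) :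
    Game X k Ψ := by
  induction k with
  | zero => exact h _ hΦ
  | succ k ih =>
    intro Y hY
    obtain ⟨x, hx, hx1, hx2⟩ := hΦ Y hY
    exact ⟨x, hx, hx1, ih (fun y => h (Fin.cons x y)) hx2⟩

theorem game_or {k : ℕ} {Φ Ψ : (Fin k → X) → Prop} (h : Game X k fun x => Φ x ∨ Ψ x) :
    Game X k Φ ∨ Game X k Ψ := by
  induction k with
  | zero => exact h
  | succ k ih =>
    by_contra hcon
    rw [not_or] at hcon
    obtain ⟨h1, h2⟩ := hcon
    have h1' : ∃ Y ∈ Cof X, ∀ x ∈ Y, ‖x‖ = 1 → ¬ Game X k fun y => Φ (Fin.cons x y) := by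
      by_contra hc
      push Not at hc
      exact h1 fun Y hY => by
        obtain ⟨x, hx, hx1, hx2⟩ := hc Y hY
        exact ⟨x, hx, hx1, hx2⟩
    have h2' : ∃ Y ∈ Cof X, ∀ x ∈ Y, ‖x‖ = 1 → ¬ Game X k fun y => Ψ (Fin.cons x y) := by
      by_contra hc
      push Not at hc
      exact h2 fun Y hY => by
        obtain ⟨x, hx, hx1, hx2⟩ := hc Y hY
        exact ⟨x, hx, hx1, hx2⟩
    obtain ⟨Y₁, hY₁, hn₁⟩ := h1'
    obtain ⟨Y₂, hY₂, hn₂⟩ := h2'
    obtain ⟨x, hx, hx1, hx2⟩ := h (Y₁ ⊓ Y₂) (Cof.inf_mem hY₁ hY₂)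
    rcases ih hx2 with h3 | h3
    · exact hn₁ x hx.1 hx1 h3
    · exact hn₂ x hx.2 hx1 h3

theorem game_point {k : ℕ} {Φ : (Fin k → X) → Prop} (h : Game X k Φ) : ∃ x, Φ x := by
  induction k with
  | zero => exact ⟨_, h⟩
  | succ k ih =>
    obtain ⟨x, -, -, hx⟩ := h ⊤ top_mem_cof
    obtain ⟨y, hy⟩ := ih hx
    exact ⟨_, hy⟩

theorem game_exists {ι : Type} (s : Finset ι) {k : ℕ} {Φ : ι → (Fin k → X) → Prop}
    (h : Game X k fun x => ∃ i ∈ s, Φ i x) : ∃ i ∈ s, Game X k (Φ i) := by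
  classical
  induction s using Finset.induction_on with
  | empty =>
    obtain ⟨x, i, hi, -⟩ := game_point h
    simp at hi
  | insert a s ha ih =>
    have h' : Game X k fun x => Φ a x ∨ ∃ i ∈ s, Φ i x := by
      refine game_mono ?_ h
      rintro x ⟨i, hi, hx⟩
      rcases Finset.mem_insert.1 hi with rfl | hi
      · exact Or.inl hx
      · exact Or.inr ⟨i, hi, hx⟩
    rcases game_or h' with h1 | h1
    · exact ⟨a, Finset.mem_insert_self _ _, h1⟩
    · obtain ⟨i, hi, h2⟩ := ih h1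
      exact ⟨i, Finset.mem_insert_of_mem hi, h2⟩

/-- the subspace player may follow a strategy `σ` -/
theorem game_restrict {k : ℕ} {Φ : (Fin k → X) → Prop} (h : Game X k Φ)
    (σ : (j : ℕ) → (Fin j → X) → Submodule ℝ X) (hσ : ∀ j x, σ j x ∈ Cof X) :
    Game X k fun x => Φ x ∧ ∀ j : Fin k, x j ∈ σ j (fun i => x ⟨i, i.2.trans j.2⟩) ∧
      ‖x j‖ = 1 := by
  induction k generalizing σ with
  | zero => exact ⟨h, fun j => j.elim0⟩
  | succ k ih =>
    intro Y hY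
    obtain ⟨x, hx, hx1, hx2⟩ := h (Y ⊓ σ 0 Fin.elim0) (Cof.inf_mem hY (hσ _ _))
    refine ⟨x, hx.1, hx1, ?_⟩
    refine game_mono ?_ (ih hx2 (fun j y => σ (j + 1) (Fin.cons x y)) (fun j y => hσ _ _))
    rintro y ⟨hy1, hy2⟩
    refine ⟨hy1, ?_⟩
    intro j
    refine Fin.cases ?_ (fun j => ?_) j
    · refine ⟨?_, hx1⟩
      have e : (fun i : Fin 0 => (Fin.cons x y : Fin (k + 1) → X) ⟨i, i.2.trans (0 : Fin (k + 1)).2⟩) =
          Fin.elim0 := by
        funext i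
        exact i.elim0
      show x ∈ σ 0 (fun i : Fin 0 => (Fin.cons x y : Fin (k + 1) → X)
        ⟨i, i.2.trans (0 : Fin (k + 1)).2⟩)
      rw [e]
      exact hx.2
    · obtain ⟨h1, h2⟩ := hy2 j
      refine ⟨?_, ?_⟩
      · have e : (fun i : Fin (j.val + 1) => (Fin.cons x y : Fin (k + 1) → X)
            ⟨i, i.2.trans j.succ.2⟩) =
            Fin.cons x (fun i : Fin j.val => y ⟨i, i.2.trans j.2⟩) := by
          funext i
          refine Fin.cases ?_ (fun i => ?_) i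
          · rfl
          · rfl
        show (Fin.cons x y : Fin (k + 1) → X) j.succ ∈ σ (j.val + 1)
          (fun i : Fin (j.val + 1) => (Fin.cons x y : Fin (k + 1) → X) ⟨i, i.2.trans j.succ.2⟩)
        rw [e, Fin.cons_succ]
        exact h1
      · rw [Fin.cons_succ]
        exact h2

theorem game_unroll {k : ℕ} {Φ : (Fin k → X) → Prop} (h : Game X k Φ)
    (σ : (j : ℕ) → (Fin j → X) → Submodule ℝ X) (hσ : ∀ j x, σ j x ∈ Cof X) :
    ∃ x : Fin k → X, (∀ j : Fin k, x j ∈ σ j (fun i => x ⟨i, i.2.trans j.2⟩) ∧ ‖x j‖ = 1) ∧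
      Φ x := by
  obtain ⟨x, h1, h2⟩ := game_point (game_restrict h σ hσ)
  exact ⟨x, h2, h1⟩

/-- a strategy for the vector player: `S j x` is a predicate on the first `j` vectors -/
theorem game_of_strategy {k : ℕ} {Φ : (Fin k → X) → Prop} (S : (j : ℕ) → (Fin j → X) → Prop)
    (h0 : S 0 Fin.elim0)
    (hstep : ∀ j < k, ∀ x : Fin j → X, S j x → ∀ Y ∈ Cof X, ∃ z ∈ Y, ‖z‖ = 1 ∧
      S (j + 1) (Fin.snoc x z))
    (hΦ : ∀ x, S k x → Φ x) : Game X k Φ := by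
  induction k generalizing S with
  | zero =>
    exact hΦ _ h0
  | succ k ih =>
    intro Y hY
    obtain ⟨z, hz, hz1, hz2⟩ := hstep 0 (Nat.succ_pos _) Fin.elim0 h0 Y hY
    refine ⟨z, hz, hz1, ?_⟩
    refine ih (fun j y => S (j + 1) (Fin.cons z y)) ?_ ?_ ?_
    · have e : (Fin.cons z (Fin.elim0 : Fin 0 → X) : Fin 1 → X) =
          (Fin.snoc (Fin.elim0 : Fin 0 → X) z : Fin 1 → X) := by
        funext i
        have : i = 0 := Fin.fin_one_eq_zero i
        subst this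
        simp [Fin.snoc]
      show S 1 (Fin.cons z (Fin.elim0 : Fin 0 → X))
      rw [e]
      exact hz2
    · intro j hj y hy Y hY
      obtain ⟨z', hz', hz1', hz2'⟩ := hstep (j + 1) (Nat.succ_lt_succ hj) _ hy Y hY
      refine ⟨z', hz', hz1', ?_⟩
      show S (j + 1 + 1) (Fin.cons z (Fin.snoc y z' : Fin (j + 1) → X))
      rw [Fin.cons_snoc_eq_snoc_cons]
      exact hz2'
    · intro y hy
      exact hΦ _ hy

end Pool.Agent.Helper23.AC
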