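import Pool.Agent.Helper9.AC.Games

/-! AC-15b: the subspace player can force an almost monotone basic sequence. -/

set_option autoImplicit false

namespace Pool.Agent.Helper23.AC

variable {X : Type*} [NormedAddCommGroup X] [NormedSpace ℝ X]

theorem ker_mem_cof (f : X →L[ℝ] ℝ) : LinearMap.ker f.toLinearMap ∈ Cof X := by
  refine ⟨?_, ?_⟩
  · have : ((LinearMap.ker f.toLinearMap : Submodule ℝ X) : Set X) = f ⁻¹' {0} := by
      ext x
      simp
    rw [this]
    exact isClosed_singleton.preimage f.continuous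
  · exact LinearEquiv.finiteDimensional f.toLinearMap.quotKerEquivRange.symm

theorem finset_inf_mem_cof {ι : Type*} (s : Finset ι) (Y : ι → Submodule ℝ X)
    (h : ∀ i ∈ s, Y i ∈ Cof X) : s.inf Y ∈ Cof X := by
  classical
  induction s using Finset.induction_on with
  | empty => exact top_mem_cof
  | insert a s ha ih =>
    rw [Finset.inf_insert]
    exact Cof.inf_mem (h a (Finset.mem_insert_self _ _))
      (ih fun i hi => h i (Finset.mem_insert_of_mem hi))

/-- Mazur's lemma -/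
theorem mazur (E : Submodule ℝ X) [FiniteDimensional ℝ E] {η : ℝ} (hη : 0 < η) :
    ∃ Z ∈ Cof X, ∀ e ∈ E, ∀ z ∈ Z, ‖e‖ ≤ (1 + η) * ‖e + z‖ := by
  classical
  have hcomp : IsCompact (Metric.sphere (0 : E) 1) := isCompact_sphere 0 1
  have hδ : 0 < η / (1 + η) := by positivity
  obtain ⟨t, ht, htc⟩ := hcomp.elim_nhds_subcover (fun e : E => Metric.ball e (η / (1 + η)))
    (fun e _ => Metric.ball_mem_nhds e hδ)
  have hf : ∀ e : E, ∃ f : X →L[ℝ] ℝ, ‖f‖ ≤ 1 ∧ f e = ‖e‖ := by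
    intro e
    obtain ⟨f, hf1, hf2⟩ := exists_dual_vector'' ℝ (e : X)
    refine ⟨f, hf1, ?_⟩
    simpa using hf2
  choose f hf1 hf2 using hf
  refine ⟨t.inf fun e => LinearMap.ker (f e).toLinearMap,
    finset_inf_mem_cof _ _ fun e _ => ker_mem_cof _, ?_⟩
  intro e he z hz
  by_cases h0 : e = 0
  · subst h0
    rw [norm_zero]
    positivity
  have hn : 0 < ‖e‖ := norm_pos_iff.2 h0
  -- normalise
  let u : E := ⟨‖e‖⁻¹ • e, E.smul_mem _ he⟩
  have hu : ‖u‖ = 1 := by
    show ‖‖e‖⁻¹ • e‖ = 1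
    rw [norm_smul, norm_inv, norm_norm, inv_mul_cancel₀ hn.ne']
  have hus : u ∈ Metric.sphere (0 : E) 1 := by
    rw [mem_sphere_zero_iff_norm]
    exact hu
  obtain ⟨w, hwt, hw⟩ := Set.mem_iUnion₂.1 (htc hus)
  have hw1 : ‖w‖ = 1 := by
    have := ht w hwt
    rwa [mem_sphere_zero_iff_norm] at this
  have hwu : ‖(u : X) - w‖ < η / (1 + η) := by
    rw [Metric.mem_ball, dist_eq_norm] at hw
    exact hw
  have hzw : f w z = 0 := by
    have := (Finset.inf_le (f := fun e => LinearMap.ker (f e).toLinearMap) hwt) hz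
    simpa using this
  have h1 : 1 ≤ ‖(w : X) + ‖e‖⁻¹ • z‖ := by
    have h2 : f w ((w : X) + ‖e‖⁻¹ • z) = 1 := by
      rw [map_add, map_smul, hzw, hf2, smul_zero, add_zero]
      exact hw1
    calc (1 : ℝ) = ‖f w ((w : X) + ‖e‖⁻¹ • z)‖ := by rw [h2]; simp
      _ ≤ ‖f w‖ * ‖(w : X) + ‖e‖⁻¹ • z‖ := (f w).le_opNorm _
      _ ≤ 1 * ‖(w : X) + ‖e‖⁻¹ • z‖ := by
        gcongr
        exact hf1 w
      _ = _ := one_mul _
  have h3 : ‖(w : X) + ‖e‖⁻¹ • z‖ ≤ ‖(u : X) + ‖e‖⁻¹ • z‖ + ‖(u : X) - w‖ := by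
    have : (w : X) + ‖e‖⁻¹ • z = ((u : X) + ‖e‖⁻¹ • z) - ((u : X) - w) := by abel
    rw [this]
    exact norm_sub_le _ _
  have h4 : ‖(u : X) + ‖e‖⁻¹ • z‖ = ‖e‖⁻¹ * ‖e + z‖ := by
    show ‖‖e‖⁻¹ • e + ‖e‖⁻¹ • z‖ = _
    rw [← smul_add, norm_smul, norm_inv, norm_norm]
  have h5 : 1 - η / (1 + η) ≤ ‖e‖⁻¹ * ‖e + z‖ := by
    rw [← h4]
    linarith
  have h6 : 1 - η / (1 + η) = (1 + η)⁻¹ := by
    field_simp
    ring
  rw [h6] at h5
  have h7 : ‖e‖ * (1 + η)⁻¹ ≤ ‖e + z‖ := by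
    have := mul_le_mul_of_nonneg_left h5 hn.le
    rwa [← mul_assoc, mul_inv_cancel₀ hn.ne', one_mul] at this
  have h8 : 0 < 1 + η := by linarith
  calc ‖e‖ = (1 + η) * (‖e‖ * (1 + η)⁻¹) := by field_simp
    _ ≤ _ := by gcongr

/-- the subspace player can force the vectors to be an almost monotone basic sequence -/
theorem game_almost_mono {k : ℕ} {Φ : (Fin k → X) → Prop} (h : Game X k Φ) (δ : ℝ)
    (hδ : 0 < δ) :
    Game X k fun x => Φ x ∧ ∀ (t : Fin k → ℝ) (m : ℕ),
      seqN x (fun j => if (j : ℕ) < m then t j else 0) ≤ (1 + δ) * seqN x t := by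
  classical
  obtain ⟨η, hη, hηk⟩ : ∃ η : ℝ, 0 < η ∧ (1 + η) ^ k ≤ 1 + δ := by
    have hc : Filter.Tendsto (fun η : ℝ => (1 + η) ^ k) (nhds 0) (nhds ((1 + 0) ^ k)) := by
      apply Continuous.tendsto
      fun_prop
    rw [add_zero, one_pow] at hc
    have h1 : ∀ᶠ η : ℝ in nhdsWithin 0 (Set.Ioi 0), (1 + η) ^ k < 1 + δ :=
      (hc.mono_left nhdsWithin_le_nhds).eventually_lt_const (by linarith)
    obtain ⟨η, h2, h3⟩ := (h1.and self_mem_nhdsWithin).exists
    exact ⟨η, h3, h2.le⟩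
  have hZ : ∀ (j : ℕ) (x : Fin j → X), ∃ Z ∈ Cof X,
      ∀ e ∈ Submodule.span ℝ (Set.range x), ∀ z ∈ Z, ‖e‖ ≤ (1 + η) * ‖e + z‖ := by
    intro j x
    haveI : FiniteDimensional ℝ (Submodule.span ℝ (Set.range x)) :=
      FiniteDimensional.span_of_finite ℝ (Set.finite_range x)
    exact mazur _ hη
  choose σ hσ1 hσ2 using hZ
  refine game_mono ?_ (game_restrict h σ hσ1)
  rintro x ⟨hx1, hx2⟩
  refine ⟨hx1, ?_⟩
  intro t m
  -- partial sums
  have hstep : ∀ m : ℕ, m < k →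
      seqN x (fun j => if (j : ℕ) < m then t j else 0) ≤
        (1 + η) * seqN x (fun j => if (j : ℕ) < m + 1 then t j else 0) := by
    intro m hm
    have hx := (hx2 ⟨m, hm⟩).1
    have h2 := hσ2 m (fun i : Fin m => x ⟨i, i.2.trans hm⟩)
      (∑ j : Fin k, (if (j : ℕ) < m then t j else 0) • x j) ?_ (t ⟨m, hm⟩ • x ⟨m, hm⟩)
      (Submodule.smul_mem _ _ hx)
    · refine h2.trans (le_of_eq ?_)
      unfold seqN
      congr 2
      have h3 : t ⟨m, hm⟩ • x ⟨m, hm⟩ =
          ∑ j : Fin k, (if j = ⟨m, hm⟩ then t j else 0) • x j := by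
        rw [Finset.sum_eq_single_of_mem (⟨m, hm⟩ : Fin k) (Finset.mem_univ _)]
        · simp
        · intro b _ hb
          simp [hb]
      rw [h3, ← Finset.sum_add_distrib]
      refine Finset.sum_congr rfl fun j _ => ?_
      rw [← add_smul]
      congr 1
      by_cases h4 : (j : ℕ) < m
      · have h5 : j ≠ ⟨m, hm⟩ := by
          rintro rfl
          exact lt_irrefl _ h4
        simp [h4, h5, Nat.lt_succ_of_lt h4]
      · by_cases h5 : j = ⟨m, hm⟩
        · subst h5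
          simp
        · have h6 : ¬ (j : ℕ) < m + 1 := by
            intro h6
            apply h5
            ext
            show (j : ℕ) = m
            omega
          simp [h4, h5, h6]
    · refine Submodule.sum_mem _ fun j _ => ?_
      by_cases h4 : (j : ℕ) < m
      · rw [if_pos h4]
        refine Submodule.smul_mem _ _ (Submodule.subset_span ⟨⟨j, h4⟩, rfl⟩)
      · rw [if_neg h4, zero_smul]
        exact Submodule.zero_mem _
  have hfull : ∀ m : ℕ, k ≤ m →
      seqN x (fun j => if (j : ℕ) < m then t j else 0) = seqN x t := by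
    intro m hm
    congr 1
    funext j
    rw [if_pos (lt_of_lt_of_le j.2 hm)]
  have hnn : 0 ≤ seqN x t := norm_nonneg _
  have hone : 1 ≤ 1 + η := by linarith
  have hind : ∀ d m : ℕ, k ≤ m + d →
      seqN x (fun j => if (j : ℕ) < m then t j else 0) ≤ (1 + η) ^ d * seqN x t := by
    intro d
    induction d with
    | zero =>
      intro m hm
      rw [hfull m hm, pow_zero, one_mul]
    | succ d ih =>
      intro m hm
      rcases lt_or_ge m k with h1 | h1
      · refine (hstep m h1).trans ?_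
        rw [pow_succ', mul_assoc]
        exact mul_le_mul_of_nonneg_left (ih (m + 1) (by omega)) (by linarith)
      · rw [hfull m h1]
        exact le_mul_of_one_le_left hnn (one_le_pow₀ hone)
  refine (hind k m (by omega)).trans ?_
  exact mul_le_mul_of_nonneg_right hηk hnn

end Pool.Agent.Helper23.AC
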