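import Pool.Agent.Helper23.AC.Basics
import Pool.Agent.Helper23.AC.UBall

/-! AC-5: convex hulls. -/

set_option autoImplicit false

namespace Pool.Agent.Helper23.AC

open Finset
open scoped Pointwise

/-- sums of elements of convex hulls -/
theorem hull_sum_mem {ι : Type*} (s : Finset ι) (a : ι → ℝ) (A : ι → Set Fn) (G : Set Fn)
    (X : ι → Fn) (hX : ∀ i ∈ s, X i ∈ convexHull ℝ (A i))
    (h : ∀ Y : ι → Fn, (∀ i ∈ s, Y i ∈ A i) → ∑ i ∈ s, a i • Y i ∈ G) :
    ∑ i ∈ s, a i • X i ∈ convexHull ℝ G := by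
  classical
  have h1 : ∑ i ∈ s, a i • X i ∈ ∑ i ∈ s, convexHull ℝ (a i • A i) := by
    rw [Set.mem_finsetSum]
    refine ⟨fun i => a i • X i, ?_, rfl⟩
    intro i hi
    rw [convexHull_smul]
    exact Set.smul_mem_smul_set (hX i hi)
  rw [← convexHull_sum] at h1
  refine convexHull_mono ?_ h1
  intro z hz
  rw [Set.mem_finsetSum] at hz
  obtain ⟨g, hg, rfl⟩ := hz
  have hch : ∀ i, ∃ Y : Fn, i ∈ s → Y ∈ A i ∧ a i • Y = g i := by
    intro i
    by_cases hi : i ∈ s
    · obtain ⟨Y, hY, hY2⟩ := hg hi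
      exact ⟨Y, fun _ => ⟨hY, hY2⟩⟩
    · exact ⟨0, fun h => absurd h hi⟩
  choose Y hY using hch
  have := h Y fun i hi => (hY i hi).1
  rwa [Finset.sum_congr rfl fun i hi => (hY i hi).2] at this

/-- convex combinations with nonnegative weights -/
theorem convex_combo {C : Set Fn} (hC : Convex ℝ C) {s t : ℝ} (hs : 0 ≤ s) (ht : 0 ≤ t)
    (hst : 0 < s + t) {y y' : Fn} (hy : 0 < s → y ∈ C) (hy' : 0 < t → y' ∈ C) :
    ∃ z ∈ C, s • y + t • y' = (s + t) • z := by
  rcases hs.eq_or_lt with h | h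
  · subst h
    refine ⟨y', hy' (by linarith), by simp⟩
  · rcases ht.eq_or_lt with h' | h'
    · subst h'
      refine ⟨y, hy h, by simp⟩
    · refine ⟨(s / (s + t)) • y + (t / (s + t)) • y', ?_, ?_⟩
      · refine hC (hy h) (hy' h') (by positivity) (by positivity) ?_
        field_simp
      · rw [smul_add, smul_smul, smul_smul]
        congr 2 <;> field_simp

theorem typIn_smul {v l r : ℕ} {f : Fn} (hf : TypIn v l r f) {a : ℝ} (ha : |a| ≤ 1) :
    TypIn v l r (a • f) := by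
  obtain ⟨c, g, hP, h1, h2, rfl⟩ := hf
  have hs : (a • c).support ⊆ c.support := Finsupp.support_smul
  have hle : ∀ n, |(a • c) n| ≤ |c n| := by
    intro n
    rw [Finsupp.smul_apply, smul_eq_mul, abs_mul]
    nlinarith [abs_nonneg (c n)]
  refine ⟨a • c, g, pat_of_le hP hs (fun π => (hle π).trans (hP.c1 π)) (ub_mono hle hP.c2),
    fun π hπ => h1 π (hs hπ), fun π hπ => h2 π (hs hπ), ?_⟩
  unfold patF
  rw [Finset.smul_sum, Finset.sum_subset hs]
  · refine Finset.sum_congr rfl fun π _ => ?_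
    rw [Finsupp.smul_apply, smul_eq_mul, mul_smul]
  · intro π _ hπ
    rw [Finsupp.notMem_support_iff.1 hπ, zero_smul]

/-- a convex combination of sums over the types, with one common profile `q` -/
theorem hull_decomp {l r : ℕ} {h : Fn}
    (hh : h ∈ convexHull ℝ {h : Fn | ∃ (p : Fn) (F : ℕ → Fn), UB 1 p ∧
        (∀ v ∈ p.support, 1 ≤ v ∧ TypIn v l r (F v)) ∧ h = ∑ v ∈ p.support, p v • F v}) :
    ∃ (q : Fn) (Y : ℕ → Fn), UB 1 q ∧ (∀ v, 0 ≤ q v) ∧
      (∀ v ∈ q.support, 1 ≤ v ∧ Y v ∈ convexHull ℝ {f | TypIn v l r f}) ∧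
      h = ∑ v ∈ q.support, q v • Y v := by
  classical
  let S : Set Fn := {h | ∃ (q : Fn) (Y : ℕ → Fn), UB 1 q ∧ (∀ v, 0 ≤ q v) ∧
      (∀ v ∈ q.support, 1 ≤ v ∧ Y v ∈ convexHull ℝ {f | TypIn v l r f}) ∧
      h = ∑ v ∈ q.support, q v • Y v}
  have hconv : Convex ℝ S := by
    rintro h ⟨q, Y, hq, hq0, hY, rfl⟩ h' ⟨q', Y', hq', hq0', hY', rfl⟩ a b ha hb hab
    have hex : ∀ v, ∃ Z : Fn, v ∈ (a • q + b • q').support →
        (1 ≤ v ∧ Z ∈ convexHull ℝ {f | TypIn v l r f}) ∧
        (a * q v) • Y v + (b * q' v) • Y' v = (a * q v + b * q' v) • Z := by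
      intro v
      by_cases hv : v ∈ (a • q + b • q').support
      · have h0 : a * q v + b * q' v ≠ 0 := by simpa using hv
        have h1 : 0 ≤ a * q v := mul_nonneg ha (hq0 v)
        have h2 : 0 ≤ b * q' v := mul_nonneg hb (hq0' v)
        have hm : ∀ {x y : ℝ}, 0 < x * y → y ≠ 0 := fun h => right_ne_zero_of_mul h.ne'
        obtain ⟨Z, hZ, hZ2⟩ := convex_combo (convex_convexHull ℝ {f | TypIn v l r f}) h1 h2
          (lt_of_le_of_ne (add_nonneg h1 h2) h0.symm)
          (y := Y v) (y' := Y' v)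
          (fun h => (hY v (Finsupp.mem_support_iff.2 (hm h))).2)
          (fun h => (hY' v (Finsupp.mem_support_iff.2 (hm h))).2)
        refine ⟨Z, fun _ => ⟨⟨?_, hZ⟩, hZ2⟩⟩
        by_cases hqv : q v = 0
        · have hqv' : q' v ≠ 0 := by
            intro h
            rw [hqv, h] at h0
            simp at h0
          exact (hY' v (Finsupp.mem_support_iff.2 hqv')).1
        · exact (hY v (Finsupp.mem_support_iff.2 hqv)).1
      · exact ⟨0, fun h => absurd h hv⟩
    choose Z hZ using hex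
    refine ⟨a • q + b • q', Z, ?_, ?_, fun v hv => (hZ v hv).1, ?_⟩
    · have h1 := ub_add (ub_smul a hq) (ub_smul b hq')
      rw [abs_of_nonneg ha, abs_of_nonneg hb, mul_one, mul_one, hab] at h1
      exact h1
    · intro v
      have h1 : 0 ≤ a * q v := mul_nonneg ha (hq0 v)
      have h2 : 0 ≤ b * q' v := mul_nonneg hb (hq0' v)
      simpa using add_nonneg h1 h2
    · have e1 : a • ∑ v ∈ q.support, q v • Y v =
          ∑ v ∈ q.support ∪ q'.support, (a * q v) • Y v := by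
        rw [Finset.smul_sum, Finset.sum_subset (Finset.subset_union_left (s₂ := q'.support))]
        · refine Finset.sum_congr rfl fun v _ => ?_
          rw [mul_smul]
        · intro v _ hv
          rw [Finsupp.notMem_support_iff.1 hv]
          simp
      have e2 : b • ∑ v ∈ q'.support, q' v • Y' v =
          ∑ v ∈ q.support ∪ q'.support, (b * q' v) • Y' v := by
        rw [Finset.smul_sum, Finset.sum_subset (Finset.subset_union_right (s₁ := q.support))]
        · refine Finset.sum_congr rfl fun v _ => ?_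
          rw [mul_smul]
        · intro v _ hv
          rw [Finsupp.notMem_support_iff.1 hv]
          simp
      rw [e1, e2, ← Finset.sum_add_distrib]
      have hsub : (a • q + b • q').support ⊆ q.support ∪ q'.support := by
        refine Finsupp.support_add.trans ?_
        exact Finset.union_subset_union Finsupp.support_smul Finsupp.support_smul
      have e3 : ∑ v ∈ (a • q + b • q').support, (a • q + b • q') v • Z v =
          ∑ v ∈ (a • q + b • q').support, ((a * q v) • Y v + (b * q' v) • Y' v) := by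
        refine Finset.sum_congr rfl fun v hv => ?_
        rw [(hZ v hv).2]
        simp
      rw [e3]
      symm
      refine Finset.sum_subset hsub ?_
      intro v _ hv
      have h0 : a * q v + b * q' v = 0 := by simpa using hv
      have h1 : 0 ≤ a * q v := mul_nonneg ha (hq0 v)
      have h2 : 0 ≤ b * q' v := mul_nonneg hb (hq0' v)
      have h3 : a * q v = 0 := by linarith
      have h4 : b * q' v = 0 := by linarith
      rw [h3, h4]
      simp
  have hgen : {h : Fn | ∃ (p : Fn) (F : ℕ → Fn), UB 1 p ∧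
        (∀ v ∈ p.support, 1 ≤ v ∧ TypIn v l r (F v)) ∧ h = ∑ v ∈ p.support, p v • F v} ⊆ S := by
    rintro h ⟨p, F, hp, hF, rfl⟩
    have hq : ∀ v, (p.mapRange (fun x : ℝ => |x|) abs_zero) v = |p v| := fun v => by simp
    have hsupp : (p.mapRange (fun x : ℝ => |x|) abs_zero).support = p.support := by
      ext v
      simp
    refine ⟨p.mapRange (fun x : ℝ => |x|) abs_zero,
      fun v => (SignType.sign (p v) : ℝ) • F v, ?_, ?_, ?_, ?_⟩
    · refine ub_mono (fun n => ?_) hp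
      rw [hq, abs_abs]
    · intro v
      rw [hq]
      exact abs_nonneg _
    · intro v hv
      rw [hsupp] at hv
      refine ⟨(hF v hv).1, subset_convexHull ℝ _ ?_⟩
      refine typIn_smul (hF v hv).2 ?_
      rcases lt_trichotomy (p v) 0 with h | h | h
      · simp [sign_neg h]
      · simp [h]
      · simp [sign_pos h]
    · rw [hsupp]
      refine Finset.sum_congr rfl fun v _ => ?_
      rw [hq, smul_smul, abs_mul_sign]
  exact convexHull_min hgen hconv hh

/-- assembling types -/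
theorem hull_asm (t : ℕ) (q : Fn) (hq : UB 1 q) (Y : ℕ → Fn)
    (hY : ∀ v ∈ q.support, t ≤ v ∧ 1 ≤ v ∧ Y v ∈ convexHull ℝ {f | Typ v f}) :
    ∑ v ∈ q.support, q v • Y v ∈ convexHull ℝ {f | Good t f} := by
  refine hull_sum_mem q.support q (fun v => {f | Typ v f}) {f | Good t f} Y
    (fun v hv => (hY v hv).2.2) ?_
  intro F hF
  show Good t _
  rw [good_iff]
  exact ⟨q, F, hq, fun v hv => ⟨(hY v hv).1, (hY v hv).2.1, hF v hv⟩, rfl⟩

/-- summing patterns of type `v` living in successive intervals `[l i, r i]` to patterns of type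
`v'`; `F` is a finite set of indices -/
theorem hull_typIn_sum {v v' : ℕ} (F : Finset ℕ) (l r : ℕ → ℕ)
    (hlr : ∀ i ∈ F, ∀ j ∈ F, i < j → r i < l j) (a : ℕ → ℝ) (X : ℕ → Fn)
    (hX : ∀ i ∈ F, X i ∈ convexHull ℝ {f | TypIn v (l i) (r i) f})
    (h1 : ∀ i ∈ F, |a i| * (1 / 8 : ℝ) ^ v ≤ (1 / 8 : ℝ) ^ v')
    (h2 : ∀ c : ℕ → Fn, (∀ i ∈ F, UB (bb v) (c i) ∧ ∀ n ∈ (c i).support, l i ≤ n ∧ n ≤ r i) →
      UB (bb v') (∑ i ∈ F, a i • c i)) :
    ∑ i ∈ F, a i • X i ∈ convexHull ℝ {f | Typ v' f} := by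
  classical
  refine hull_sum_mem F a (fun i => {f | TypIn v (l i) (r i) f}) {f | Typ v' f} X hX ?_
  intro Y hY
  have hch : ∀ i, ∃ (c : Fn) (g : ℕ → Fn), i ∈ F → Pat v c g ∧
      (∀ π ∈ c.support, l i ≤ π ∧ π ≤ r i) ∧
      (∀ π ∈ c.support, ∀ n ∈ (g π).support, n ≤ r i) ∧ Y i = patF c g := by
    intro i
    by_cases hi : i ∈ F
    · obtain ⟨c, g, h⟩ := hY i hi
      exact ⟨c, g, fun _ => h⟩
    · exact ⟨0, fun _ => 0, fun h => absurd h hi⟩
  choose c g hcg using hch
  -- the index of a position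
  have huniq : ∀ i ∈ F, ∀ j ∈ F, ∀ π, π ∈ (c i).support → π ∈ (c j).support → i = j := by
    intro i hi j hj π h3 h4
    have h5 := (hcg i hi).2.1 π h3
    have h6 := (hcg j hj).2.1 π h4
    rcases lt_trichotomy i j with h | h | h
    · have := hlr i hi j hj h
      omega
    · exact h
    · have := hlr j hj i hi h
      omega
  have hidx : ∀ π, ∃ i, (∃ j ∈ F, π ∈ (c j).support) → i ∈ F ∧ π ∈ (c i).support := by
    intro π
    by_cases h : ∃ j ∈ F, π ∈ (c j).support
    · obtain ⟨j, hj, hj2⟩ := h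
      exact ⟨j, fun _ => ⟨hj, hj2⟩⟩
    · exact ⟨0, fun h' => absurd h' h⟩
  choose idx hidx using hidx
  let C : Fn := ∑ i ∈ F, a i • c i
  let G : ℕ → Fn := fun π => g (idx π) π
  have hCval : ∀ i ∈ F, ∀ π ∈ (c i).support, C π = a i * c i π := by
    intro i hi π hπ
    show (∑ i ∈ F, a i • c i) π = _
    rw [Finsupp.finsetSum_apply, Finset.sum_eq_single_of_mem i hi]
    · simp
    · intro j hj hne
      have : π ∉ (c j).support := fun h => hne (huniq j hj i hi π h hπ)
      simp [Finsupp.notMem_support_iff.1 this]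
  have hCsupp : ∀ π ∈ C.support, ∃ j ∈ F, π ∈ (c j).support := by
    intro π hπ
    by_contra hcon
    push Not at hcon
    refine Finsupp.mem_support_iff.1 hπ ?_
    show (∑ i ∈ F, a i • c i) π = 0
    rw [Finsupp.finsetSum_apply]
    refine Finset.sum_eq_zero fun j hj => ?_
    simp [Finsupp.notMem_support_iff.1 (hcon j hj)]
  have hG : ∀ i ∈ F, ∀ π ∈ (c i).support, G π = g i π := by
    intro i hi π hπ
    obtain ⟨h3, h4⟩ := hidx π ⟨i, hi, hπ⟩
    show g (idx π) π = g i π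
    rw [huniq _ h3 i hi π h4 hπ]
  show Typ v' _
  refine ⟨C, G, ⟨?_, ?_, ?_, ?_, ?_⟩, ?_⟩
  · intro π
    by_cases hπ : π ∈ C.support
    · obtain ⟨i, hi, hi2⟩ := hCsupp π hπ
      rw [hCval i hi π hi2, abs_mul]
      exact (mul_le_mul_of_nonneg_left ((hcg i hi).1.c1 π) (abs_nonneg _)).trans (h1 i hi)
    · rw [Finsupp.notMem_support_iff.1 hπ]
      simp
  · exact h2 c fun i hi => ⟨(hcg i hi).1.c2, (hcg i hi).2.1⟩
  · intro π hπ
    obtain ⟨i, hi, hi2⟩ := hCsupp π hπ
    rw [hG i hi π hi2]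
    exact (hcg i hi).1.hg π hi2
  · intro π hπ
    obtain ⟨i, hi, hi2⟩ := hCsupp π hπ
    rw [hG i hi π hi2]
    exact (hcg i hi).1.s1 π hi2
  · intro π hπ π' hπ' hlt
    obtain ⟨i, hi, hi2⟩ := hCsupp π hπ
    obtain ⟨j, hj, hj2⟩ := hCsupp π' hπ'
    rw [hG i hi π hi2]
    intro n hn
    rcases lt_trichotomy i j with h | h | h
    · have h3 := hlr i hi j hj h
      have h4 := (hcg i hi).2.2.1 π hi2 n hn
      have h5 := (hcg j hj).2.1 π' hj2
      omega
    · subst h
      exact (hcg i hi).1.s2 π hi2 π' hj2 hlt n hn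
    · have h3 := hlr j hj i hi h
      have h4 := (hcg i hi).2.1 π hi2
      have h5 := (hcg j hj).2.1 π' hj2
      omega
  · -- the sum
    have e1 : ∀ i ∈ F, a i • Y i = ∑ π ∈ (c i).support, C π • G π := by
      intro i hi
      rw [(hcg i hi).2.2.2]
      unfold patF
      rw [Finset.smul_sum]
      refine Finset.sum_congr rfl fun π hπ => ?_
      rw [hCval i hi π hπ, hG i hi π hπ, mul_smul]
    rw [Finset.sum_congr rfl e1]
    have hdisj : (↑F : Set ℕ).PairwiseDisjoint fun i => (c i).support := by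
      intro i hi j hj hne
      rw [Function.onFun, Finset.disjoint_left]
      intro π h3 h4
      exact hne (huniq i hi j hj π h3 h4)
    rw [← Finset.sum_biUnion hdisj]
    symm
    unfold patF
    refine Finset.sum_subset ?_ ?_
    · intro π hπ
      obtain ⟨i, hi, hi2⟩ := hCsupp π hπ
      exact Finset.mem_biUnion.2 ⟨i, hi, hi2⟩
    · intro π _ hπ
      rw [Finsupp.notMem_support_iff.1 hπ, zero_smul]

/-- restriction as a linear map -/
noncomputable def resL (E : Set ℕ) : Fn →ₗ[ℝ] Fn where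
  toFun := res E
  map_add' := res_add E
  map_smul' := res_smul E

theorem res_eq_self {E : Set ℕ} {f : Fn} (h : ∀ n ∈ f.support, n ∈ E) : res E f = f := by
  classical
  ext n
  rw [res_apply]
  split_ifs with hn
  · rfl
  · by_contra hcon
    exact hn (h n (Finsupp.mem_support_iff.2 (Ne.symm hcon)))

/-- summing children at the positions `ρ i` -/
theorem hull_good_sum {v : ℕ} (F : Finset ℕ) (ρ r : ℕ → ℕ)
    (hlr : ∀ i ∈ F, ∀ j ∈ F, i < j → ρ i < ρ j ∧ r i < ρ j) (a : ℕ → ℝ) (X : ℕ → Fn)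
    (hX : ∀ i ∈ F, X i ∈ convexHull ℝ {f | Good (ρ i) f})
    (hs : ∀ i ∈ F, ∀ n ∈ (X i).support, ρ i ≤ n ∧ n ≤ r i)
    (h1 : ∀ i ∈ F, |a i| ≤ (1 / 8 : ℝ) ^ v)
    (h2 : UB (bb v) (∑ i ∈ F, Finsupp.single (ρ i) (a i))) :
    ∑ i ∈ F, a i • X i ∈ convexHull ℝ {f | Typ v f} := by
  classical
  have hX' : ∀ i ∈ F, X i ∈ convexHull ℝ {f | Good (ρ i) f ∧ ∀ n ∈ f.support, ρ i ≤ n ∧ n ≤ r i} := by
    intro i hi
    have e : resL (Set.Icc (ρ i) (r i)) (X i) = X i :=
      res_eq_self fun n hn => hs i hi n hn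
    rw [← e]
    have h3 : resL (Set.Icc (ρ i) (r i)) (X i) ∈
        (resL (Set.Icc (ρ i) (r i))) '' convexHull ℝ {f | Good (ρ i) f} := ⟨X i, hX i hi, rfl⟩
    rw [LinearMap.image_convexHull] at h3
    refine convexHull_mono ?_ h3
    rintro _ ⟨f, hf, rfl⟩
    refine ⟨good_res hf _, ?_⟩
    intro n hn
    exact (res_support _ _ hn).2
  refine hull_sum_mem F a _ {f | Typ v f} X hX' ?_
  intro Y hY
  have hinj : ∀ i ∈ F, ∀ j ∈ F, ρ i = ρ j → i = j := by
    intro i hi j hj h
    rcases lt_trichotomy i j with h3 | h3 | h3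
    · have := (hlr i hi j hj h3).1
      omega
    · exact h3
    · have := (hlr j hj i hi h3).1
      omega
  have hlt : ∀ i ∈ F, ∀ j ∈ F, ρ i < ρ j → i < j := by
    intro i hi j hj h
    rcases lt_trichotomy i j with h3 | h3 | h3
    · exact h3
    · subst h3
      omega
    · have := (hlr j hj i hi h3).1
      omega
  have hidx : ∀ π, ∃ i, (∃ j ∈ F, ρ j = π) → i ∈ F ∧ ρ i = π := by
    intro π
    by_cases h : ∃ j ∈ F, ρ j = π
    · obtain ⟨j, hj, hj2⟩ := h
      exact ⟨j, fun _ => ⟨hj, hj2⟩⟩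
    · exact ⟨0, fun h' => absurd h' h⟩
  choose idx hidx using hidx
  let C : Fn := ∑ i ∈ F, Finsupp.single (ρ i) (a i)
  let G : ℕ → Fn := fun π => Y (idx π)
  have hCval : ∀ i ∈ F, C (ρ i) = a i := by
    intro i hi
    show (∑ i ∈ F, Finsupp.single (ρ i) (a i)) (ρ i) = _
    rw [Finsupp.finsetSum_apply, Finset.sum_eq_single_of_mem i hi]
    · simp
    · intro j hj hne
      rw [Finsupp.single_eq_of_ne]
      intro h
      exact hne (hinj j hj i hi h.symm)
  have hCsupp : ∀ π ∈ C.support, ∃ j ∈ F, ρ j = π := by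
    intro π hπ
    by_contra hcon
    push Not at hcon
    refine Finsupp.mem_support_iff.1 hπ ?_
    show (∑ i ∈ F, Finsupp.single (ρ i) (a i)) π = 0
    rw [Finsupp.finsetSum_apply]
    refine Finset.sum_eq_zero fun j hj => ?_
    rw [Finsupp.single_eq_of_ne]
    exact fun h => hcon j hj h.symm
  have hG : ∀ i ∈ F, G (ρ i) = Y i := by
    intro i hi
    obtain ⟨h3, h4⟩ := hidx (ρ i) ⟨i, hi, rfl⟩
    show Y (idx (ρ i)) = Y i
    rw [hinj _ h3 i hi h4]
  show Typ v _
  refine ⟨C, G, ⟨?_, h2, ?_, ?_, ?_⟩, ?_⟩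
  · intro π
    by_cases hπ : π ∈ C.support
    · obtain ⟨i, hi, rfl⟩ := hCsupp π hπ
      rw [hCval i hi]
      exact h1 i hi
    · rw [Finsupp.notMem_support_iff.1 hπ]
      simp
  · intro π hπ
    obtain ⟨i, hi, rfl⟩ := hCsupp π hπ
    rw [hG i hi]
    exact Or.inr (hY i hi).1
  · intro π hπ n hn
    obtain ⟨i, hi, rfl⟩ := hCsupp π hπ
    rw [hG i hi] at hn
    exact ((hY i hi).2 n hn).1
  · intro π hπ π' hπ' hlt' n hn
    obtain ⟨i, hi, rfl⟩ := hCsupp π hπ
    obtain ⟨j, hj, rfl⟩ := hCsupp π' hπ'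
    rw [hG i hi] at hn
    have h3 := (hlr i hi j hj (hlt i hi j hj hlt')).2
    exact lt_of_le_of_lt ((hY i hi).2 n hn).2 h3
  · have e1 : ∑ i ∈ F, a i • Y i = ∑ π ∈ F.image ρ, C π • G π := by
      rw [Finset.sum_image fun i hi j hj h => hinj i hi j hj h]
      refine Finset.sum_congr rfl fun i hi => ?_
      rw [hCval i hi, hG i hi]
    rw [e1]
    symm
    unfold patF
    refine Finset.sum_subset ?_ ?_
    · intro π hπ
      obtain ⟨i, hi, hi2⟩ := hCsupp π hπ
      exact Finset.mem_image.2 ⟨i, hi, hi2⟩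
    · intro π _ hπ
      rw [Finsupp.notMem_support_iff.1 hπ, zero_smul]

end Pool.Agent.Helper23.AC
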